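import Pool.Agent.R759.SCBase

/-!
Problem MP_95e9b3_co: the least total length of a cycle cover of a Cayley graph.
-/

set_option autoImplicit false
open scoped Classical

namespace Pool.Agent.Results.MP_95e9b3_co.CayleyGraphs

open Pool.Agent.R759.SC Pool.Agent.TH505.OCDC

/-- The members of the list `C` are cycles of `G`, and every edge of `G` lies on one of them. -/
def IsCycleCover {V : Type} (G : SimpleGraph V) (C : List (Σ v : V, G.Walk v v)) : Prop :=
  (∀ c ∈ C, c.2.IsCycle) ∧ ∀ e ∈ G.edgeSet, ∃ c ∈ C, e ∈ c.2.edges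

/-- Let `G` be a Cayley graph of valency `d` of a finite group `Γ`, without bridges. The least total
length of a cycle cover of `G` is `|Γ| ⌈d / 2⌉`, which is at most `4 / 3` times the number of edges
of `G`. -/
theorem result (Γ : Type) [Group Γ] [Fintype Γ] (G : SimpleGraph Γ)
    (hG : ∀ a u v : Γ, G.Adj u v → G.Adj (a * u) (a * v))
    (hbridge : ∀ u v : Γ, G.Adj u v → (G.deleteEdges {s(u, v)}).Reachable u v) :
    IsLeast {n : ℕ | ∃ C : List (Σ v : Γ, G.Walk v v), IsCycleCover G C ∧
      (C.map fun c => c.2.length).sum = n}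
      (Fintype.card Γ * (((G.neighborSet 1).ncard + 1) / 2)) ∧
    3 * (Fintype.card Γ * (((G.neighborSet 1).ncard + 1) / 2)) ≤ 4 * G.edgeSet.ncard := by
  obtain ⟨C, hC, hcov, hlen⟩ := exists_cover hG hbridge
  have hlow : ∀ C : List (Σ v : Γ, G.Walk v v), IsCycleCover G C →
      Fintype.card Γ * (((G.neighborSet 1).ncard + 1) / 2) ≤
        (C.map fun c => c.2.length).sum := by
    intro C hC
    have h1 : ∀ u v, G.Adj u v → 0 < tot C u v + tot C v u := by
      intro u v huv
      exact (tot_pos_iff C huv.ne).2 (hC.2 s(u, v) huv)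
    have h2 := total_two C
    have h3 : ∑ u : Γ, 2 * (((G.neighborSet 1).ncard + 1) / 2) ≤
        ∑ u, ∑ v, (tot C u v + tot C v u) := by
      refine Finset.sum_le_sum fun u _ => ?_
      have := lower_vertex C h1 u
      rwa [nbr_const hG] at this
    rw [Finset.sum_const, smul_eq_mul, Finset.card_univ] at h3
    have h4 : Fintype.card Γ * (2 * (((G.neighborSet 1).ncard + 1) / 2)) =
        2 * (Fintype.card Γ * (((G.neighborSet 1).ncard + 1) / 2)) := by ring
    omega
  refine ⟨⟨⟨C, ⟨hC, ?_⟩, hlen⟩, ?_⟩, ?_⟩
  · intro e he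
    induction e using Sym2.ind with
    | _ u v =>
      have he' : G.Adj u v := he
      exact (tot_pos_iff C he'.ne).1 (hcov u v he')
  · rintro n ⟨C', hC', rfl⟩
    exact hlow C' hC'
  · -- the number of edges
    have hE : Fintype.card Γ * (G.neighborSet 1).ncard = 2 * G.edgeSet.ncard := by
      have h1 := G.sum_degrees_eq_twice_card_edges
      have h2 : ∀ v, G.degree v = (G.neighborSet 1).ncard := by
        intro v
        rw [← nbr_const hG v, Set.ncard_eq_toFinset_card', ← SimpleGraph.card_neighborSet_eq_degree,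
          Set.toFinset_card]
      rw [Finset.sum_congr rfl (fun v _ => h2 v), Finset.sum_const, smul_eq_mul,
        Finset.card_univ] at h1
      rw [h1, Set.ncard_eq_toFinset_card']
      rfl
    have hd : (G.neighborSet 1).ncard ≠ 1 := by
      intro h1
      obtain ⟨b, hb⟩ := Set.ncard_eq_one.1 h1
      have ha : G.Adj 1 b := by
        have : b ∈ G.neighborSet 1 := by rw [hb]; rfl
        exact this
      obtain ⟨w⟩ := hbridge 1 b ha
      cases w with
      | nil => exact ha.ne rfl
      | cons h _ =>
        rw [SimpleGraph.deleteEdges_adj] at h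
        have h7 := h.1
        have h8 : ∀ x, G.Adj 1 x → x = b := by
          intro x hx
          have : x ∈ G.neighborSet 1 := hx
          rw [hb] at this
          exact this
        have h9 := h8 _ h7
        subst h9
        exact h.2 rfl
    set d := (G.neighborSet 1).ncard
    have h5 : 3 * ((d + 1) / 2) ≤ 2 * d := by omega
    calc 3 * (Fintype.card Γ * ((d + 1) / 2)) = Fintype.card Γ * (3 * ((d + 1) / 2)) := by ring
    _ ≤ Fintype.card Γ * (2 * d) := Nat.mul_le_mul_left _ h5
    _ = 2 * (Fintype.card Γ * d) := by ring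
    _ = 4 * G.edgeSet.ncard := by rw [hE]; ring

end Pool.Agent.Results.MP_95e9b3_co.CayleyGraphs
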