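import Pool.Agent.R769.MN.PetG
import Pool.Agent.R129.Sh.Short

set_option autoImplicit false

/-!
# Short cycle covers: graphs with matching number at most eight (MP_95e9b3_co)

Let `G` be a finite graph without cut-edge in which every matching has at most eight edges.
Then the edges of `G` are covered by circuits of total length at most 7/5 times the number of edges.

Proof.  By the theorem of helper769 (`R769/MN`) there is a map of the edges of `G` to the edges of the Petersen graph
such that the preimages of cycles are cycles.  The Petersen graph has twenty covers by four cycles
of total length 21, and together they cover each edge equally often; so the preimages of one of them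
have total length at most 7/5 times the number of edges.  They are decomposed into circuits.
-/

open Finset

namespace Pool.Agent.Results.MP_95e9b3_co.MatchingNumberEight

open Pool.Agent.H160R2.CC Pool.Agent.H160R2.CC.MGraph

/-- `M` is a matching: its edges are not loops and no two of them have a common end. -/
def IsMatching (G : MGraph) (M : Finset G.E) : Prop :=
  (∀ e ∈ M, G.src e ≠ G.tgt e) ∧ ∀ e ∈ M, ∀ e' ∈ M, e ≠ e' →
    G.src e ≠ G.src e' ∧ G.src e ≠ G.tgt e' ∧ G.tgt e ≠ G.src e' ∧ G.tgt e ≠ G.tgt e'

/-- the edge set of a circuit (a cycle of the problem): a minimal nonempty even set of edges -/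
def IsCircuit (G : MGraph) (C : Finset G.E) : Prop :=
  C.Nonempty ∧ G.IsCycle C ∧ ∀ D ⊆ C, D.Nonempty → G.IsCycle D → D = C

/-- Let `G` be a finite graph without cut-edge in which every matching has at most eight edges.
Then the edges of `G` are covered by circuits of total length at most 7/5 times the number of edges. -/
theorem result (G : MGraph) (hB : ¬ G.HasCutEdge)
    (hM : ∀ M : Finset G.E, IsMatching G M → M.card ≤ 8) :
    ∃ F : Multiset (Finset G.E), (∀ C ∈ F, IsCircuit G C) ∧ (∀ e, ∃ C ∈ F, e ∈ C) ∧
      5 * (F.map Finset.card).sum ≤ 7 * Fintype.card G.E :=
  Pool.Agent.R129.Sh.short G (Pool.Agent.R769.MN.succ_match G hB hM)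

end Pool.Agent.Results.MP_95e9b3_co.MatchingNumberEight
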