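import Pool.Agent.R545.PC.Main
import Pool.Agent.R129.Sh.Short

set_option autoImplicit false

/-!
# Short cycle covers: graphs with vertex cover number at most nine (MP_95e9b3_co)

Let `G` be a finite graph without cut-edge and `C` a set of at most nine vertices such that every
edge that is not a loop has an end in `C`.
Then the edges of `G` are covered by circuits of total length at most 7/5 times the number of edges.

Proof.  By the theorem of helper545 and helper890 (`R545/PC`, `R890/FF`) there is a map of the edges of `G` to the edges of the Petersen graph
such that the preimages of cycles are cycles.  The Petersen graph has twenty covers by four cycles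
of total length 21, and together they cover each edge equally often; so the preimages of one of them
have total length at most 7/5 times the number of edges.  They are decomposed into circuits.
-/

open Finset

namespace Pool.Agent.Results.MP_95e9b3_co.VertexCoverNine

open Pool.Agent.H160R2.CC Pool.Agent.H160R2.CC.MGraph

/-- the edge set of a circuit (a cycle of the problem): a minimal nonempty even set of edges -/
def IsCircuit (G : MGraph) (C : Finset G.E) : Prop :=
  C.Nonempty ∧ G.IsCycle C ∧ ∀ D ⊆ C, D.Nonempty → G.IsCycle D → D = C

/-- Let `G` be a finite graph without cut-edge and `C` a set of at most nine vertices such that every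
edge that is not a loop has an end in `C`.
Then the edges of `G` are covered by circuits of total length at most 7/5 times the number of edges. -/
theorem result (G : MGraph) (hB : ¬ G.HasCutEdge) (C : Finset G.V)
    (hC : ∀ e, G.src e ≠ G.tgt e → G.src e ∈ C ∨ G.tgt e ∈ C) (h9 : C.card ≤ 9) :
    ∃ F : Multiset (Finset G.E), (∀ C ∈ F, IsCircuit G C) ∧ (∀ e, ∃ C ∈ F, e ∈ C) ∧
      5 * (F.map Finset.card).sum ≤ 7 * Fintype.card G.E :=
  Pool.Agent.R129.Sh.short G (Pool.Agent.R545.PC.succ_cover G hB C hC h9)

end Pool.Agent.Results.MP_95e9b3_co.VertexCoverNine
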